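import Pool.Agent.H82.NTB.Stmts

/-!
# E1: the man's own position is nearer than the next one
-/

set_option autoImplicit false

namespace Pool.NTB

open Pool.NET

theorem e1_pos {A B : ℤ} (h1 : A < B) (h2 : -A < B) : |A| < |B| :=
  (abs_lt.2 ⟨by linarith, h1⟩).trans_le (le_abs_self B)

theorem e1_neg {A B : ℤ} (h1 : A < -B) (h2 : -A < -B) : |A| < |B| :=
  (abs_lt.2 ⟨by linarith, h1⟩).trans_le (neg_le_abs B)

theorem e1_thm : E1_S := by
  intro p e g h u hp a s t hs0 hs1 ht0 ht1
  obtain ⟨q0, gq, gW, We, eM, MS⟩ := hp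
  obtain ⟨⟨c, r⟩, k⟩ := a
  cases k <;> simp only [prM, nx2] <;> (try split_ifs) <;> simp only [fx] <;>
    first
      | exact e1_pos (by linarith) (by linarith)
      | exact e1_neg (by linarith) (by linarith)

end Pool.NTB
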